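import Mathlib.Algebra.Algebra.Bilinear
import Mathlib.LinearAlgebra.Pi
import Mathlib.Algebra.Polynomial.Roots
import Mathlib.Tactic

/-!
A 4-algebra whose Bernstein operators fall into infinitely many classes.
-/

set_option autoImplicit false

namespace Pool.Agent.Results.MP_be8152_al.InfinitelyManyClasses

section Defs

variable {k : Type*} [Field k] {V : Type*} [AddCommGroup V] [Module k V]

/-- The bilinear product `m` makes `V` a 4-algebra: it is commutative and `(x²)² = 0`. -/
def IsFourAlgebra (m : V →ₗ[k] V →ₗ[k] V) : Prop :=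
  (∀ x y : V, m x y = m y x) ∧ ∀ x : V, m (m x x) (m x x) = 0

/-- `Ω` is a Bernstein operator on `(V, m)`: it is linear and idempotent, with
`x² · Ω(x) = 0` and `Ω(x)² + Ω(x²) = x²` for all `x`. -/
def IsBernsteinOperator (m : V →ₗ[k] V →ₗ[k] V) (Ω : V →ₗ[k] V) : Prop :=
  (∀ x : V, Ω (Ω x) = Ω x) ∧ (∀ x : V, m (m x x) (Ω x) = 0) ∧
    ∀ x : V, m (Ω x) (Ω x) + Ω (m x x) = m x x

/-- The set of Bernstein operators on `(V, m)`. -/
abbrev BO (m : V →ₗ[k] V →ₗ[k] V) : Type _ := {Ω : V →ₗ[k] V // IsBernsteinOperator m Ω}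

/-- The relation `Ω ≈ Ω'`: there are an automorphism `f` of `(V, m)` and `v₀` in `V` with
`Ω'(x) = f(Ω(f⁻¹(x))) - 2 x·v₀` for all `x` and `Ω'(v₀) = v₀ - v₀²`. -/
def BEquiv (m : V →ₗ[k] V →ₗ[k] V) (Ω Ω' : V →ₗ[k] V) : Prop :=
  ∃ f : V ≃ₗ[k] V, (∀ x y : V, f (m x y) = m (f x) (f y)) ∧
    ∃ v₀ : V, (∀ x : V, Ω' x = f (Ω (f.symm x)) - (2 : k) • m x v₀) ∧ Ω' v₀ = v₀ - m v₀ v₀

/-- `≈` as an equivalence relation on the Bernstein operators of a 4-algebra. -/
def bernsteinSetoid (m : V →ₗ[k] V →ₗ[k] V) (hm : IsFourAlgebra m) : Setoid (BO m) where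
  r Ω Ω' := BEquiv m Ω.1 Ω'.1
  iseqv := by
    refine ⟨?_, ?_, ?_⟩
    · rintro ⟨Ω, hΩ⟩
      refine ⟨LinearEquiv.refl k V, fun _ _ => rfl, 0, ?_, ?_⟩
      · intro x
        simp
      · simp
    · rintro ⟨Ω, hΩ⟩ ⟨Ω', hΩ'⟩ ⟨f, hf, v₀, h1, h2⟩
      have hfs : ∀ x y : V, f.symm (m x y) = m (f.symm x) (f.symm y) := by
        intro x y
        apply f.injective
        rw [f.apply_symm_apply, hf, f.apply_symm_apply, f.apply_symm_apply]
      have h1' : ∀ x, Ω x = f.symm (Ω' (f x)) + (2 : k) • m x (f.symm v₀) := by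
        intro x
        apply f.injective
        rw [map_add, map_smul, f.apply_symm_apply, hf, f.apply_symm_apply]
        have := h1 (f x)
        rw [f.symm_apply_apply] at this
        simp only at this
        rw [this]
        abel
      refine ⟨f.symm, hfs, -(f.symm v₀), ?_, ?_⟩
      · intro x
        simp only [LinearEquiv.symm_symm, map_neg, smul_neg, sub_neg_eq_add]
        exact h1' x
      · have := h1' (-(f.symm v₀))
        simp only at this h2 ⊢
        rw [this]
        simp only [map_neg, f.apply_symm_apply, h2, map_sub, hfs, LinearMap.neg_apply, smul_neg]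
        module
    · rintro ⟨Ω, hΩ⟩ ⟨Ω', hΩ'⟩ ⟨Ω'', hΩ''⟩ ⟨f, hf, v₀, h1, h2⟩ ⟨g, hg, w₀, h3, h4⟩
      simp only at h1 h2 h3 h4
      refine ⟨f.trans g, ?_, g v₀ + w₀, ?_, ?_⟩
      · intro x y
        simp only [LinearEquiv.trans_apply, hf, hg]
      · intro x
        simp only
        rw [h3, h1, map_sub, map_smul, hg, g.apply_symm_apply]
        simp only [LinearEquiv.trans_apply, LinearEquiv.trans_symm, map_add, smul_add]
        abel
      · simp only
        rw [map_add, h4, h3 (g v₀), g.symm_apply_apply, h2, map_sub, hg]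
        simp only [map_add, LinearMap.add_apply, hm.1 w₀ (g v₀)]
        module

end Defs

section Example

variable {k : Type*} [Field k] {n : ℕ} (h : 8 ≤ n)

/-- Coordinates of the vectors `v₁, v₂, v₃`. -/
def vI (j : Fin 3) : Fin n := Fin.castLE h ⟨2 + j.val, by omega⟩

/-- Coordinates of the vectors `a₁, a₂, a₃`. -/
def aI (j : Fin 3) : Fin n := Fin.castLE h ⟨5 + j.val, by omega⟩

/-- The coordinate functions. -/
def pr (i : Fin n) : (Fin n → k) →ₗ[k] k := LinearMap.proj i

/-- The three linear forms `X₀`, `X₁`, `-X₀ - X₁`. -/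
def l (j : Fin 3) : (Fin n → k) →ₗ[k] k :=
  ![pr (Fin.castLE h 0), pr (Fin.castLE h 1), -pr (Fin.castLE h 0) - pr (Fin.castLE h 1)] j

/-- The product function of the example: `v_j · w = l_j(w) a_j`. -/
def mulFun (x y : Fin n → k) : Fin n → k := fun i =>
  ∑ j : Fin 3, if i = aI h j then l h j x * y (vI h j) + x (vI h j) * l h j y else 0

/-- The product of the example as a bilinear map. -/
def mul : (Fin n → k) →ₗ[k] (Fin n → k) →ₗ[k] (Fin n → k) :=
  LinearMap.mk₂ k (mulFun h)
    (by
      intro x y z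
      ext i
      simp only [mulFun, Pi.add_apply, ← Finset.sum_add_distrib]
      refine Finset.sum_congr rfl fun j _ => ?_
      rw [map_add]
      split_ifs <;> ring)
    (by
      intro c x y
      ext i
      simp only [mulFun, Pi.smul_apply, smul_eq_mul, Finset.mul_sum]
      refine Finset.sum_congr rfl fun j _ => ?_
      rw [map_smul, smul_eq_mul]
      split_ifs <;> ring)
    (by
      intro x y z
      ext i
      simp only [mulFun, Pi.add_apply, ← Finset.sum_add_distrib]
      refine Finset.sum_congr rfl fun j _ => ?_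
      rw [map_add]
      split_ifs <;> ring)
    (by
      intro c x y
      ext i
      simp only [mulFun, Pi.smul_apply, smul_eq_mul, Finset.mul_sum]
      refine Finset.sum_congr rfl fun j _ => ?_
      rw [map_smul, smul_eq_mul]
      split_ifs <;> ring)

lemma mul_apply (x y : Fin n → k) (i : Fin n) : mul h x y i =
    ∑ j : Fin 3, if i = aI h j then l h j x * y (vI h j) + x (vI h j) * l h j y else 0 := rfl

lemma aI_inj {i j : Fin 3} (e : aI h i = aI h j) : i = j := by
  unfold aI at e
  have := Fin.castLE_injective h e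
  simp at this
  omega

lemma mul_aI (x y : Fin n → k) (j : Fin 3) :
    mul h x y (aI h j) = l h j x * y (vI h j) + x (vI h j) * l h j y := by
  rw [mul_apply, Finset.sum_eq_single j]
  · rw [if_pos rfl]
  · intro b _ hb
    rw [if_neg]
    intro e
    exact hb (aI_inj h e).symm
  · intro hj
    exact absurd (Finset.mem_univ j) hj

lemma mul_other (x y : Fin n → k) (i : Fin n) (hi : ∀ j, i ≠ aI h j) : mul h x y i = 0 := by
  rw [mul_apply]
  exact Finset.sum_eq_zero fun j _ => if_neg (hi j)

lemma mul_vI (x y : Fin n → k) (j : Fin 3) : mul h x y (vI h j) = 0 := by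
  apply mul_other
  intro i e
  unfold aI vI at e
  have := Fin.castLE_injective h e
  simp at this
  omega

lemma mul_lt (x y : Fin n → k) (i : Fin n) (hi : i.val < 5) : mul h x y i = 0 := by
  apply mul_other
  intro j e
  unfold aI at e
  rw [e] at hi
  simp at hi

lemma l_eq_zero (j : Fin 3) (x : Fin n → k) (h0 : x (Fin.castLE h 0) = 0)
    (h1 : x (Fin.castLE h 1) = 0) : l h j x = 0 := by
  fin_cases j <;> simp [l, pr, h0, h1]

lemma l_mul (x y : Fin n → k) (j : Fin 3) : l h j (mul h x y) = 0 := by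
  apply l_eq_zero
  · exact mul_lt h x y _ (by simp)
  · exact mul_lt h x y _ (by simp)

lemma mul_comm' (x y : Fin n → k) : mul h x y = mul h y x := by
  ext i
  rw [mul_apply, mul_apply]
  refine Finset.sum_congr rfl fun j _ => ?_
  split_ifs <;> ring

lemma mul_mul (x y z : Fin n → k) : mul h (mul h x y) z = 0 := by
  ext i
  rw [mul_apply, Pi.zero_apply]
  refine Finset.sum_eq_zero fun j _ => ?_
  rw [l_mul, mul_vI, zero_mul, zero_mul, add_zero, ite_self]

lemma isFourAlgebra_mul : IsFourAlgebra (mul h : (Fin n → k) →ₗ[k] _) :=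
  ⟨mul_comm' h, fun x => mul_mul h x x _⟩

/-- The Bernstein operator attached to the line spanned by `x + t y`. -/
def op (t : k) : (Fin n → k) →ₗ[k] (Fin n → k) where
  toFun x := fun i => if i.val = 0 then x (Fin.castLE h 0)
    else if i.val = 1 then t * x (Fin.castLE h 0)
    else if i.val < 5 then 0 else x i
  map_add' := by
    intro x y
    ext i
    simp only [Pi.add_apply]
    split_ifs <;> ring
  map_smul' := by
    intro c x
    ext i
    simp only [Pi.smul_apply, smul_eq_mul, RingHom.id_apply]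
    split_ifs <;> ring

lemma op_apply (t : k) (x : Fin n → k) (i : Fin n) : op h t x i =
    if i.val = 0 then x (Fin.castLE h 0)
    else if i.val = 1 then t * x (Fin.castLE h 0)
    else if i.val < 5 then 0 else x i := rfl

lemma op_0 (t : k) (x : Fin n → k) : op h t x (Fin.castLE h 0) = x (Fin.castLE h 0) := by
  rw [op_apply, if_pos (by simp)]

lemma op_1 (t : k) (x : Fin n → k) : op h t x (Fin.castLE h 1) = t * x (Fin.castLE h 0) := by
  rw [op_apply, if_neg (by simp), if_pos (by simp)]

lemma op_vI (t : k) (x : Fin n → k) (j : Fin 3) : op h t x (vI h j) = 0 := by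
  have h1 : (vI h j).val = 2 + j.val := by simp [vI]
  rw [op_apply, if_neg (by omega), if_neg (by omega), if_pos (by omega)]

lemma op_op (t : k) (x : Fin n → k) : op h t (op h t x) = op h t x := by
  ext i
  rw [op_apply, op_0, op_apply h t x i]
  split_ifs <;> rfl

lemma op_mul (t : k) (x y : Fin n → k) : op h t (mul h x y) = mul h x y := by
  ext i
  rw [op_apply]
  have h0 : mul h x y (Fin.castLE h 0) = 0 := mul_lt h x y _ (by simp)
  split_ifs with h1 h2 h3
  · rw [h0, mul_lt h x y i (by omega)]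
  · rw [h0, mul_lt h x y i (by omega), mul_zero]
  · rw [mul_lt h x y i (by omega)]
  · rfl

lemma op_bernstein (t : k) : IsBernsteinOperator (mul h) (op h t : (Fin n → k) →ₗ[k] _) := by
  refine ⟨op_op h t, fun x => mul_mul h x x _, fun x => ?_⟩
  rw [op_mul]
  have : mul h (op h t x) (op h t x) = 0 := by
    ext i
    rw [mul_apply, Pi.zero_apply]
    refine Finset.sum_eq_zero fun j _ => ?_
    rw [op_vI, mul_zero, zero_mul, add_zero, ite_self]
  rw [this, zero_add]

lemma l_sum (x : Fin n → k) : ∑ j, l h j x = 0 := by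
  rw [Fin.sum_univ_three]
  simp [l, pr]

lemma exists_l (i j : Fin 3) (hij : i ≠ j) : ∃ x : Fin n → k, l h i x = 0 ∧ l h j x = 1 := by
  have h01 : Fin.castLE h (0 : Fin 8) ≠ Fin.castLE h 1 := by
    intro e
    have := Fin.castLE_injective h e
    simp at this
  fin_cases i <;> fin_cases j
  · exact absurd rfl hij
  · exact ⟨Pi.single (Fin.castLE h 1) 1, by simp [l, pr, h01]⟩
  · exact ⟨Pi.single (Fin.castLE h 1) (-1), by simp [l, pr, h01]⟩
  · exact ⟨Pi.single (Fin.castLE h 0) 1, by simp [l, pr, h01.symm]⟩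
  · exact absurd rfl hij
  · exact ⟨Pi.single (Fin.castLE h 0) (-1), by simp [l, pr, h01.symm]⟩
  · exact ⟨Pi.single (Fin.castLE h 0) 1 - Pi.single (Fin.castLE h 1) 1,
      by simp [l, pr, h01, h01.symm]⟩
  · exact ⟨Pi.single (Fin.castLE h 1) 1 - Pi.single (Fin.castLE h 0) 1,
      by simp [l, pr, h01, h01.symm]⟩
  · exact absurd rfl hij

lemma l_single_vI (i j : Fin 3) (c : k) : l h i (Pi.single (vI h j) c) = 0 := by
  apply l_eq_zero
  · rw [Pi.single_eq_of_ne]
    intro e
    have := Fin.castLE_injective h e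
    simp at this
  · rw [Pi.single_eq_of_ne]
    intro e
    have := Fin.castLE_injective h e
    simp at this
    omega

lemma vI_inj {i j : Fin 3} (e : vI h i = vI h j) : i = j := by
  unfold vI at e
  have := Fin.castLE_injective h e
  simp at this
  omega

lemma mul_single_vI (x : Fin n → k) (j : Fin 3) :
    mul h x (Pi.single (vI h j) 1) = l h j x • Pi.single (aI h j) 1 := by
  ext i
  by_cases hi : ∃ m, i = aI h m
  · obtain ⟨m, rfl⟩ := hi
    rw [mul_aI, l_single_vI, mul_zero, add_zero, Pi.smul_apply, smul_eq_mul]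
    by_cases hmj : m = j
    · subst hmj
      rw [Pi.single_eq_same, Pi.single_eq_same]
    · rw [Pi.single_eq_of_ne (fun e => hmj (vI_inj h e)),
        Pi.single_eq_of_ne (fun e => hmj (aI_inj h e)), mul_zero, mul_zero]
  · push Not at hi
    rw [mul_other h _ _ i hi, Pi.smul_apply, Pi.single_eq_of_ne (hi j), smul_zero]

/-- An automorphism permutes the three linear forms up to factors. -/
lemma exists_perm (f : (Fin n → k) ≃ₗ[k] (Fin n → k))
    (hf : ∀ x y, f (mul h x y) = mul h (f x) (f y)) (i : Fin 3) :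
    ∃ j : Fin 3, ∃ c : k, c ≠ 0 ∧ ∀ x, l h j (f x) = c * l h i x := by
  set Y := f (Pi.single (vI h i) 1) with hY
  set b := f (Pi.single (aI h i) 1) with hb
  have key : ∀ x, mul h (f x) Y = l h i x • b := by
    intro x
    rw [hY, ← hf, mul_single_vI, map_smul]
  have key' : ∀ s, mul h s Y = l h i (f.symm s) • b := by
    intro s
    have := key (f.symm s)
    rwa [f.apply_symm_apply] at this
  -- coordinates of `Y` under the forms
  have hYj : ∀ j m, l h i (f.symm (Pi.single (vI h j) 1)) * b (aI h m) =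
      if m = j then l h j Y else 0 := by
    intro j m
    have h1 := congrFun (key' (Pi.single (vI h j) 1)) (aI h m)
    rw [mul_comm', mul_single_vI, Pi.smul_apply, Pi.smul_apply, smul_eq_mul, smul_eq_mul] at h1
    rw [← h1]
    split_ifs with hmj
    · rw [hmj, Pi.single_eq_same, mul_one]
    · rw [Pi.single_eq_of_ne (fun e => hmj (aI_inj h e)), mul_zero]
  have hzero : ∀ j, l h j Y = 0 := by
    have h2 : ∀ j m, j ≠ m → l h j Y ≠ 0 → l h m Y = 0 := by
      intro j m hjm hj
      have h3 := hYj j j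
      rw [if_pos rfl] at h3
      have h4 := hYj j m
      rw [if_neg hjm.symm] at h4
      have h5 : l h i (f.symm (Pi.single (vI h j) 1)) ≠ 0 := by
        intro e
        rw [e, zero_mul] at h3
        exact hj h3.symm
      have h6 : b (aI h m) = 0 := (mul_eq_zero.1 h4).resolve_left h5
      have h7 := hYj m m
      rw [if_pos rfl, h6, mul_zero] at h7
      exact h7.symm
    intro j
    by_contra hj
    have hs := l_sum h Y
    rw [Finset.sum_eq_single j (fun m _ hm => h2 j m hm.symm hj) (by simp)] at hs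
    exact hj hs
  -- some coordinate of `b` is nonzero
  obtain ⟨e, he⟩ : ∃ e : Fin n → k, l h i e = 1 := by
    rcases eq_or_ne i 0 with rfl | hi
    · obtain ⟨x, -, hx⟩ := exists_l (k := k) h 1 0 (by decide)
      exact ⟨x, hx⟩
    · obtain ⟨x, -, hx⟩ := exists_l (k := k) h 0 i hi.symm
      exact ⟨x, hx⟩
  have hbe : mul h (f e) Y = b := by rw [key, he, one_smul]
  have hbne : b ≠ 0 := by
    intro h0
    have : (Pi.single (aI h i) 1 : Fin n → k) = 0 := f.injective (by rw [← hb, h0, map_zero])
    have := congrFun this (aI h i)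
    rw [Pi.single_eq_same] at this
    exact one_ne_zero this
  obtain ⟨j, hj⟩ : ∃ j, b (aI h j) ≠ 0 := by
    by_contra hcon
    push Not at hcon
    apply hbne
    ext m
    by_cases hm : ∃ j, m = aI h j
    · obtain ⟨j, rfl⟩ := hm
      exact hcon j
    · push Not at hm
      rw [← hbe]
      exact mul_other h _ _ m hm
  have hYS : ∀ x, l h j (f x) * Y (vI h j) = l h i x * b (aI h j) := by
    intro x
    have h1 := congrFun (key x) (aI h j)
    rw [mul_aI, hzero j, mul_zero, add_zero, Pi.smul_apply, smul_eq_mul] at h1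
    exact h1
  have hYne : Y (vI h j) ≠ 0 := by
    intro h0
    have := hYS e
    rw [h0, mul_zero, he, one_mul] at this
    exact hj this.symm
  refine ⟨j, b (aI h j) / Y (vI h j), div_ne_zero hj hYne, ?_⟩
  intro x
  rw [div_mul_eq_mul_div, eq_div_iff hYne, hYS, mul_comm]

/-- The forms are permuted with a common factor. -/
lemma exists_perm' (f : (Fin n → k) ≃ₗ[k] (Fin n → k))
    (hf : ∀ x y, f (mul h x y) = mul h (f x) (f y)) :
    ∃ σ : Equiv.Perm (Fin 3), ∃ c : k, c ≠ 0 ∧ ∀ i x, l h (σ i) (f x) = c * l h i x := by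
  choose σ c hc hl using exists_perm h f hf
  have hσ : Function.Injective σ := by
    intro i j hij
    by_contra hne
    obtain ⟨x, h1, h2⟩ := exists_l (k := k) h i j hne
    have h3 := hl i x
    have h4 := hl j x
    rw [hij, h4, h1, h2, mul_zero, mul_one] at h3
    exact hc j h3
  have hbij : Function.Bijective σ := Finite.injective_iff_bijective.1 hσ
  have hsum : ∀ x, ∑ i, c i * l h i x = 0 := by
    intro x
    have h1 : ∑ i, l h (σ i) (f x) = ∑ j, l h j (f x) :=
      Function.Bijective.sum_comp hbij (fun j => l h j (f x))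
    rw [l_sum] at h1
    rw [← h1]
    exact Finset.sum_congr rfl fun i _ => (hl i x).symm
  have hcc : ∀ i, c i = c 0 := by
    have h01 : Fin.castLE h (0 : Fin 8) ≠ Fin.castLE h 1 := by
      intro e
      have := Fin.castLE_injective h e
      simp at this
    have e0 := hsum (Pi.single (Fin.castLE h 0) 1)
    have e1 := hsum (Pi.single (Fin.castLE h 1) 1)
    rw [Fin.sum_univ_three] at e0 e1
    simp [l, pr, h01, h01.symm] at e0 e1
    intro i
    fin_cases i
    · rfl
    · simp only
      change c 1 = c 0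
      linear_combination e1 - e0
    · show c 2 = c 0
      linear_combination -e0
  refine ⟨Equiv.ofBijective σ hbij, c 0, hc 0, ?_⟩
  intro i x
  rw [← hcc i]
  exact hl i x

/-- The vector `x + t y`. -/
def wv (t : k) : Fin n → k := fun i => if i.val = 0 then 1 else if i.val = 1 then t else 0

lemma op_wv (t : k) : op h t (wv t) = wv t := by
  ext i
  rw [op_apply]
  unfold wv
  split_ifs <;> simp_all

/-- Equivalent operators have the same invariant. -/
lemma invariant (s t : k) (hst : BEquiv (mul h) (op h s) (op h t)) :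
    (1 + s + s ^ 2) ^ 3 * (t * (1 + t)) ^ 2 * 8 = (1 + t + t ^ 2) ^ 3 * (s * (1 + s)) ^ 2 * 8 := by
  obtain ⟨f, hf, v₀, h1, -⟩ := hst
  obtain ⟨σ, c, hc, hσ⟩ := exists_perm' h f hf
  set x := f (wv s) with hx
  have hx1 : x (Fin.castLE h 1) = t * x (Fin.castLE h 0) := by
    have h2 := h1 x
    rw [hx, f.symm_apply_apply, op_wv, ← hx] at h2
    have h3 := congrFun h2 (Fin.castLE h 1)
    rw [op_1, Pi.sub_apply, Pi.smul_apply, mul_lt h x v₀ _ (by simp), smul_zero, sub_zero] at h3
    exact h3.symm
  set a := x (Fin.castLE h 0) with ha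
  have hw0 : (wv s : Fin n → k) (Fin.castLE h 0) = 1 := by simp [wv]
  have hw1 : (wv s : Fin n → k) (Fin.castLE h 1) = s := by simp [wv]
  -- power sum and product of the values of the three forms
  have hp2 : ∑ j, (l h j x) ^ 2 = c ^ 2 * ∑ i, (l h i (wv s)) ^ 2 := by
    rw [← Equiv.sum_comp σ, Finset.mul_sum]
    refine Finset.sum_congr rfl fun i _ => ?_
    rw [hσ]
    ring
  have hp3 : ∏ j, l h j x = c ^ 3 * ∏ i, l h i (wv s) := by
    rw [← Equiv.prod_comp σ, Fin.prod_univ_three, Fin.prod_univ_three, hσ, hσ, hσ]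
    ring
  rw [Fin.sum_univ_three, Fin.sum_univ_three] at hp2
  rw [Fin.prod_univ_three, Fin.prod_univ_three] at hp3
  simp only [l, pr, Matrix.cons_val_zero, Matrix.cons_val_one, Matrix.cons_val, LinearMap.proj_apply,
    LinearMap.sub_apply, LinearMap.neg_apply, hw0, hw1, hx1] at hp2 hp3
  rw [← ha] at hp2 hp3
  have hane : a ≠ 0 := by
    intro h0
    have h4 : l h (σ 0) x = 0 := by
      apply l_eq_zero
      · rw [← ha, h0]
      · rw [hx1, h0, mul_zero]
    rw [hx, hσ] at h4
    have h5 : l h 0 (wv s : Fin n → k) = 1 := by simp [l, pr, wv]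
    rw [h5, mul_one] at h4
    exact hc h4
  have e2 : a ^ 2 * (2 * (1 + t + t ^ 2)) = c ^ 2 * (2 * (1 + s + s ^ 2)) := by
    linear_combination hp2
  have e3 : a ^ 3 * (t * (1 + t)) = c ^ 3 * (s * (1 + s)) := by
    linear_combination -hp3
  have hne : a ^ 6 * c ^ 6 ≠ 0 := mul_ne_zero (pow_ne_zero _ hane) (pow_ne_zero _ hc)
  have hfin : (c ^ 2 * (2 * (1 + s + s ^ 2))) ^ 3 * (a ^ 3 * (t * (1 + t))) ^ 2 =
      (a ^ 2 * (2 * (1 + t + t ^ 2))) ^ 3 * (c ^ 3 * (s * (1 + s))) ^ 2 := by
    rw [← e2, ← e3]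
  apply mul_left_cancel₀ hne
  linear_combination hfin

end Example

open Polynomial in
/-- **Infinitely many classes.** Over every infinite field `k` of characteristic different from
two and for every `n ≥ 8` there is a 4-algebra structure on `k^n` whose Bernstein operators form
infinitely many classes for `≈`. -/
theorem result (k : Type*) [Field k] [Infinite k] (h2 : (2 : k) ≠ 0) (n : ℕ) (hn : 8 ≤ n) :
    ∃ (m : (Fin n → k) →ₗ[k] (Fin n → k) →ₗ[k] (Fin n → k)) (hm : IsFourAlgebra m),
      Infinite (Quotient (bernsteinSetoid m hm)) := by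
  classical
  refine ⟨mul hn, isFourAlgebra_mul hn, ?_⟩
  by_contra hfin
  rw [not_infinite_iff_finite] at hfin
  -- the parameters different from `0` and `-1`
  have hinf : Infinite {t : k // t ∉ ({0, -1} : Set k)} := by
    have : (({0, -1} : Set k)ᶜ).Infinite := Set.Finite.infinite_compl (Set.toFinite _)
    exact this.to_subtype
  obtain ⟨q, hq⟩ := Finite.exists_infinite_fiber
    (fun t : {t : k // t ∉ ({0, -1} : Set k)} =>
      (Quotient.mk (bernsteinSetoid (mul hn) (isFourAlgebra_mul hn))
        ⟨op hn t.1, op_bernstein hn t.1⟩))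
  obtain ⟨⟨s, hs⟩, hsq⟩ := hq.nonempty
  simp only [Set.mem_preimage, Set.mem_singleton_iff] at hsq
  have hs0 : s ≠ 0 := fun e => hs (by simp [e])
  have hs1 : 1 + s ≠ 0 := by
    intro e
    apply hs
    have : s = -1 := by linear_combination e
    simp [this]
  -- all members of the fiber are roots of one nonzero polynomial
  set P : k[X] := C ((1 + s + s ^ 2) ^ 3) * (X * (1 + X)) ^ 2 -
    (1 + X + X ^ 2) ^ 3 * C ((s * (1 + s)) ^ 2) with hP
  have hPne : P ≠ 0 := by
    intro h0
    have hc : P.coeff 6 = 0 := by rw [h0, coeff_zero]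
    have h1 : P = C ((1 + s + s ^ 2) ^ 3) * (X ^ 2 + 2 * X ^ 3 + X ^ 4) -
        C ((s * (1 + s)) ^ 2) * (1 + 3 * X + 6 * X ^ 2 + 7 * X ^ 3 + 6 * X ^ 4 + 3 * X ^ 5 +
          X ^ 6) := by
      rw [hP]
      ring
    rw [h1, coeff_sub, coeff_C_mul, coeff_C_mul] at hc
    simp [coeff_X_pow, coeff_X, coeff_one] at hc
    rcases hc with hc | hc
    · exact hs0 hc
    · exact hs1 hc
  have hroots : ∀ t : {t : k // t ∉ ({0, -1} : Set k)}, t ∈
      ((fun t : {t : k // t ∉ ({0, -1} : Set k)} =>
      (Quotient.mk (bernsteinSetoid (mul hn) (isFourAlgebra_mul hn))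
        ⟨op hn t.1, op_bernstein hn t.1⟩)) ⁻¹' {q}) → t.1 ∈ P.roots.toFinset := by
    intro t ht
    simp only [Set.mem_preimage, Set.mem_singleton_iff] at ht
    rw [← hsq] at ht
    have hrel : BEquiv (mul hn) (op hn t.1) (op hn s) := Quotient.exact ht
    have hinv := invariant hn t.1 s hrel
    rw [Multiset.mem_toFinset, mem_roots hPne, IsRoot.def, hP]
    simp only [eval_sub, eval_mul, eval_C, eval_pow, eval_add, eval_X, eval_one]
    have h8 : (8 : k) ≠ 0 := by
      have : (8 : k) = 2 ^ 3 := by norm_num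
      rw [this]
      exact pow_ne_zero _ h2
    apply mul_right_cancel₀ h8
    linear_combination -hinv
  have hfinite : Finite ((fun t : {t : k // t ∉ ({0, -1} : Set k)} =>
      (Quotient.mk (bernsteinSetoid (mul hn) (isFourAlgebra_mul hn))
        ⟨op hn t.1, op_bernstein hn t.1⟩)) ⁻¹' {q}) := by
    apply Set.Finite.to_subtype
    apply Set.Finite.of_finite_image (f := Subtype.val) _ Subtype.val_injective.injOn
    apply Set.Finite.subset (P.roots.toFinset.finite_toSet)
    rintro _ ⟨t, ht, rfl⟩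
    exact hroots t ht
  exact not_finite_iff_infinite.2 hq hfinite

end Pool.Agent.Results.MP_be8152_al.InfinitelyManyClasses
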