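import Mathlib.Algebra.Algebra.Bilinear
import Mathlib.LinearAlgebra.Pi
import Mathlib.Tactic

/-!
A 4-algebra without Bernstein operator, in every dimension `n ≥ 8` and over every field of
characteristic different from two.
-/

set_option autoImplicit false

namespace Pool.Agent.Results.MP_be8152_al.NoOperator

variable {k : Type*} [Field k] {V : Type*} [AddCommGroup V] [Module k V]

/-- The bilinear product `m` makes `V` a 4-algebra: it is commutative and `(x²)² = 0`. -/
def IsFourAlgebra (m : V →ₗ[k] V →ₗ[k] V) : Prop :=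
  (∀ x y : V, m x y = m y x) ∧ ∀ x : V, m (m x x) (m x x) = 0

/-- `Ω` is a Bernstein operator on `(V, m)`: it is linear and idempotent, with
`x² · Ω(x) = 0` and `Ω(x)² + Ω(x²) = x²` for all `x`. -/
def IsBernsteinOperator (m : V →ₗ[k] V →ₗ[k] V) (Ω : V →ₗ[k] V) : Prop :=
  (∀ x : V, Ω (Ω x) = Ω x) ∧ (∀ x : V, m (m x x) (Ω x) = 0) ∧
    ∀ x : V, m (Ω x) (Ω x) + Ω (m x x) = m x x

/-- The product function of the counterexample. The basis vectors number `0, ..., 7` are
`a, b, a², ab, b², a³, b³, d` and `a² b² = -2 d`, `(ab)² = d`. -/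
def mulFun {n : ℕ} (h : 8 ≤ n) (x y : Fin n → k) : Fin n → k := fun i =>
  if i = Fin.castLE h 2 then x (Fin.castLE h 0) * y (Fin.castLE h 0)
  else if i = Fin.castLE h 3 then
    x (Fin.castLE h 0) * y (Fin.castLE h 1) + x (Fin.castLE h 1) * y (Fin.castLE h 0)
  else if i = Fin.castLE h 4 then x (Fin.castLE h 1) * y (Fin.castLE h 1)
  else if i = Fin.castLE h 5 then
    x (Fin.castLE h 0) * y (Fin.castLE h 2) + x (Fin.castLE h 2) * y (Fin.castLE h 0)
  else if i = Fin.castLE h 6 then
    x (Fin.castLE h 1) * y (Fin.castLE h 4) + x (Fin.castLE h 4) * y (Fin.castLE h 1)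
  else if i = Fin.castLE h 7 then
    x (Fin.castLE h 3) * y (Fin.castLE h 3) -
      2 * (x (Fin.castLE h 2) * y (Fin.castLE h 4) + x (Fin.castLE h 4) * y (Fin.castLE h 2))
  else 0

/-- The product of the counterexample as a bilinear map. -/
def mul {n : ℕ} (h : 8 ≤ n) : (Fin n → k) →ₗ[k] (Fin n → k) →ₗ[k] (Fin n → k) :=
  LinearMap.mk₂ k (mulFun h)
    (by
      intro x y z
      ext i
      simp only [mulFun, Pi.add_apply]
      split_ifs <;> ring)
    (by
      intro c x y
      ext i
      simp only [mulFun, Pi.smul_apply, smul_eq_mul]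
      split_ifs <;> ring)
    (by
      intro x y z
      ext i
      simp only [mulFun, Pi.add_apply]
      split_ifs <;> ring)
    (by
      intro c x y
      ext i
      simp only [mulFun, Pi.smul_apply, smul_eq_mul]
      split_ifs <;> ring)

section

variable {n : ℕ} (h : 8 ≤ n) (x y : Fin n → k)

lemma cast_ne {i j : Fin 8} (hij : i ≠ j) : Fin.castLE h i ≠ Fin.castLE h j := by
  intro e
  exact hij (Fin.castLE_injective h e)

lemma mul_def : mul h x y = mulFun h x y := rfl

lemma mul_0 : mul h x y (Fin.castLE h 0) = 0 := by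
  rw [mul_def, mulFun, if_neg (cast_ne h (by decide)), if_neg (cast_ne h (by decide)),
    if_neg (cast_ne h (by decide)), if_neg (cast_ne h (by decide)),
    if_neg (cast_ne h (by decide)), if_neg (cast_ne h (by decide))]

lemma mul_1 : mul h x y (Fin.castLE h 1) = 0 := by
  rw [mul_def, mulFun, if_neg (cast_ne h (by decide)), if_neg (cast_ne h (by decide)),
    if_neg (cast_ne h (by decide)), if_neg (cast_ne h (by decide)),
    if_neg (cast_ne h (by decide)), if_neg (cast_ne h (by decide))]

lemma mul_2 : mul h x y (Fin.castLE h 2) = x (Fin.castLE h 0) * y (Fin.castLE h 0) := by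
  rw [mul_def, mulFun, if_pos rfl]

lemma mul_3 : mul h x y (Fin.castLE h 3) =
    x (Fin.castLE h 0) * y (Fin.castLE h 1) + x (Fin.castLE h 1) * y (Fin.castLE h 0) := by
  rw [mul_def, mulFun, if_neg (cast_ne h (by decide)), if_pos rfl]

lemma mul_4 : mul h x y (Fin.castLE h 4) = x (Fin.castLE h 1) * y (Fin.castLE h 1) := by
  rw [mul_def, mulFun, if_neg (cast_ne h (by decide)), if_neg (cast_ne h (by decide)),
    if_pos rfl]

lemma mul_5 : mul h x y (Fin.castLE h 5) =
    x (Fin.castLE h 0) * y (Fin.castLE h 2) + x (Fin.castLE h 2) * y (Fin.castLE h 0) := by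
  rw [mul_def, mulFun, if_neg (cast_ne h (by decide)), if_neg (cast_ne h (by decide)),
    if_neg (cast_ne h (by decide)), if_pos rfl]

lemma mul_6 : mul h x y (Fin.castLE h 6) =
    x (Fin.castLE h 1) * y (Fin.castLE h 4) + x (Fin.castLE h 4) * y (Fin.castLE h 1) := by
  rw [mul_def, mulFun, if_neg (cast_ne h (by decide)), if_neg (cast_ne h (by decide)),
    if_neg (cast_ne h (by decide)), if_neg (cast_ne h (by decide)), if_pos rfl]

lemma mul_7 : mul h x y (Fin.castLE h 7) =
    x (Fin.castLE h 3) * y (Fin.castLE h 3) -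
      2 * (x (Fin.castLE h 2) * y (Fin.castLE h 4) +
        x (Fin.castLE h 4) * y (Fin.castLE h 2)) := by
  rw [mul_def, mulFun, if_neg (cast_ne h (by decide)), if_neg (cast_ne h (by decide)),
    if_neg (cast_ne h (by decide)), if_neg (cast_ne h (by decide)),
    if_neg (cast_ne h (by decide)), if_pos rfl]

lemma mul_comm' : mul h x y = mul h y x := by
  ext i
  simp only [mul_def, mulFun]
  split_ifs <;> ring

lemma mul_sq_sq : mul h (mul h x x) (mul h x x) = 0 := by
  ext i
  rw [mul_def, mulFun, mul_0, mul_1, mul_2, mul_3, mul_4, Pi.zero_apply]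
  split_ifs <;> ring

end

lemma isFourAlgebra_mul {n : ℕ} (h : 8 ≤ n) :
    IsFourAlgebra (mul h : (Fin n → k) →ₗ[k] (Fin n → k) →ₗ[k] (Fin n → k)) :=
  ⟨mul_comm' h, mul_sq_sq h⟩

/-- If `u` lies in the image of the operator, its first two coordinates vanish. -/
lemma coord_zero {n : ℕ} (h : 8 ≤ n) (u : Fin n → k) (hu : mul h (mul h u u) u = 0) :
    u (Fin.castLE h 0) = 0 ∧ u (Fin.castLE h 1) = 0 := by
  constructor
  · have h5 := congrFun hu (Fin.castLE h 5)
    rw [mul_5, mul_0, mul_2, Pi.zero_apply] at h5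
    have : u (Fin.castLE h 0) ^ 3 = 0 := by linear_combination h5
    exact pow_eq_zero_iff (by norm_num) |>.1 this
  · have h6 := congrFun hu (Fin.castLE h 6)
    rw [mul_6, mul_1, mul_4, Pi.zero_apply] at h6
    have : u (Fin.castLE h 1) ^ 3 = 0 := by linear_combination h6
    exact pow_eq_zero_iff (by norm_num) |>.1 this

/-- Linearised identity: `z² u = 0` for `z` in the kernel and `u` in the image of a Bernstein
operator. -/
lemma ker_sq_mul (h2 : (2 : k) ≠ 0) (m : V →ₗ[k] V →ₗ[k] V) (hm : ∀ x y : V, m x y = m y x)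
    (Ω : V →ₗ[k] V) (hΩ : ∀ x : V, m (m x x) (Ω x) = 0) (z u : V) (hz : Ω z = 0) (hu : Ω u = u) :
    m (m z z) u = 0 := by
  have e1 : Ω (z + u) = u := by rw [map_add, hz, hu, zero_add]
  have e3 : Ω (z - u) = -u := by rw [map_sub, hz, hu, zero_sub]
  have h1 := hΩ (z + u)
  have h3 := hΩ (z - u)
  have h4 := hΩ u
  rw [hu] at h4
  rw [e1] at h1
  rw [e3] at h3
  simp only [map_add, map_sub, map_neg, LinearMap.add_apply, LinearMap.sub_apply, hm u z, h4,
    add_zero, sub_zero] at h1 h3
  have h5 : (2 : k) • m (m z z) u = 0 := by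
    have : (2 : k) • m (m z z) u = (m (m z z) u + m (m z u) u + m (m z u) u) -
        (-(m (m z z) u - m (m z u) u - m (m z u) u)) := by
      module
    rw [this]
    have h1' : m (m z z) u + m (m z u) u + m (m z u) u = 0 := by rw [← h1]
    have h3' : -(m (m z z) u - m (m z u) u - m (m z u) u) = 0 := by rw [← h3]
    rw [h1', h3', sub_zero]
  exact (smul_eq_zero.1 h5).resolve_left h2

/-- **A 4-algebra without Bernstein operators.** Over every field `k` of characteristic different
from two and for every `n ≥ 8` there is a 4-algebra structure on `k^n` which has no Bernstein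
operator. -/
theorem result (k : Type*) [Field k] (h2 : (2 : k) ≠ 0) (n : ℕ) (hn : 8 ≤ n) :
    ∃ m : (Fin n → k) →ₗ[k] (Fin n → k) →ₗ[k] (Fin n → k),
      IsFourAlgebra m ∧ ∀ Ω : (Fin n → k) →ₗ[k] (Fin n → k), ¬ IsBernsteinOperator m Ω := by
  refine ⟨mul hn, isFourAlgebra_mul hn, ?_⟩
  rintro Ω ⟨hi, hA, hB⟩
  -- a general vector is replaced by its component in the kernel
  have key : ∀ e : Fin n → k, ∃ z : Fin n → k, Ω z = 0 ∧ z (Fin.castLE hn 0) = e (Fin.castLE hn 0) ∧
      z (Fin.castLE hn 1) = e (Fin.castLE hn 1) := by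
    intro e
    have hu : mul hn (mul hn (Ω e) (Ω e)) (Ω e) = 0 := by
      have := hA (Ω e)
      rwa [hi e] at this
    obtain ⟨h0, h1⟩ := coord_zero hn (Ω e) hu
    refine ⟨e - Ω e, ?_, ?_, ?_⟩
    · rw [map_sub, hi, sub_self]
    · rw [Pi.sub_apply, h0, sub_zero]
    · rw [Pi.sub_apply, h1, sub_zero]
  obtain ⟨z, hz, hz0, hz1⟩ := key (Pi.single (Fin.castLE hn 0) 1)
  obtain ⟨w, hw, hw0, hw1⟩ := key (Pi.single (Fin.castLE hn 1) 1)
  have h01 : Fin.castLE hn (0 : Fin 8) ≠ Fin.castLE hn 1 := cast_ne hn (by decide)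
  rw [Pi.single_eq_same] at hz0
  rw [Pi.single_eq_of_ne h01.symm] at hz1
  rw [Pi.single_eq_of_ne h01] at hw0
  rw [Pi.single_eq_same] at hw1
  -- the square of an element of the kernel lies in the image
  have hu : Ω (mul hn w w) = mul hn w w := by
    have := hB w
    rwa [hw, map_zero, zero_add] at this
  have hzero := ker_sq_mul h2 (mul hn) (mul_comm' hn) Ω hA z (mul hn w w) hz hu
  have h7 := congrFun hzero (Fin.castLE hn 7)
  rw [mul_7, mul_2, mul_3, mul_4, mul_2, mul_3, mul_4, hz0, hz1, hw0, hw1, Pi.zero_apply] at h7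
  apply h2
  linear_combination -h7

end Pool.Agent.Results.MP_be8152_al.NoOperator
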